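import Mathlib
import Pool.Agent.H61.IntersectionSizes

/-!
# Set families with distinct pairwise intersection sizes: the exact value

For `n ≥ 1` let `f n` be the largest `m` such that there are `m` distinct subsets of an
`n`-element set whose `m.choose 2` pairwise intersections have pairwise different sizes.
We determine `f n` for every `n ≥ 1`.

Write `N m` for the least `n` that admits such a family of `m` sets.  The proof, in
`Pool/Agent/H61/IntersectionSizes.lean`, shows `N 3 = 3`, `N 4 = 7`, `N 5 = 11` and
`N m = m.choose 2 + 2` for all `m ≥ 6`.

* Lower bound: the values lie in `{0, ..., n - 1}`; if at most one of these numbers is not a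
  value, the largest members of the family are forced and clash with two disjoint members.
* Upper bound: an induction that inserts two new sets in the middle of the family (ordered by
  size), starting from an explicit family of 13 subsets of an 80-element set; the cases
  `m ≤ 12` are explicit families.
-/

set_option autoImplicit false

namespace Pool.Agent.Results.MP_6ac4e5_co.ExactValue

/-- A family `A 0, ..., A (m - 1)` of subsets of `{0, ..., n - 1}` is intersection-distinct if
its members are pairwise distinct and the sizes `|A i ∩ A j|`, `i < j`, are pairwise
different. -/
def IntersectionDistinct {n m : ℕ} (A : Fin m → Finset (Fin n)) : Prop :=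
  Function.Injective A ∧
    ∀ i j k l : Fin m, i < j → k < l → (A i ∩ A j).card = (A k ∩ A l).card → i = k ∧ j = l

/-- The closed formula: `(1 + ⌊√(8 n - 15)⌋) / 2` rounded down, except that
`f 1 = f 2 = 2`, `f 3 = f 4 = 3`, `f 7 = 4` and `f 11 = 5`. -/
def f (n : ℕ) : ℕ :=
  if n ≤ 2 then 2 else if n ≤ 4 then 3 else if n = 7 then 4 else if n = 11 then 5
  else (1 + Nat.sqrt (8 * n - 15)) / 2

/-- For every `n ≥ 1`, the largest number of subsets of an `n`-element set that form an
intersection-distinct family is `f n`. -/
theorem result : ∀ n : ℕ, 1 ≤ n →
    IsGreatest {m : ℕ | ∃ A : Fin m → Finset (Fin n), IntersectionDistinct A} (f n) :=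
  Pool.Agent.H61.IntersectionSizes.main

end Pool.Agent.Results.MP_6ac4e5_co.ExactValue
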